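import Mathlib
import Pool.Agent.Q192.SphA

/-!
# Hyponormal roots of spherically quasinormal tuples
-/

set_option autoImplicit false
set_option linter.unusedSectionVars false

open scoped InnerProductSpace ComplexOrder

noncomputable section

namespace Pool.Agent.Results.MP_20dafb_an.Roots

open Pool.Agent.Q192.SphA

variable {H : Type*} [NormedAddCommGroup H] [InnerProductSpace ℂ H] [CompleteSpace H]

/-- The tuple is commuting. -/
def Commuting {ι : Type*} (T : ι → H →L[ℂ] H) : Prop := ∀ i j, T i * T j = T j * T i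

/-- Joint hyponormality: the operator matrix whose `(i,j)` entry is
`[T_j^*, T_i] = T_j^* T_i - T_i T_j^*` is a positive operator on `H ⊕ ⋯ ⊕ H`, i.e. its quadratic
form is real and nonnegative. -/
def JointlyHyponormal {ι : Type*} [Fintype ι] (T : ι → H →L[ℂ] H) : Prop :=
  ∀ h : ι → H, 0 ≤ ∑ i, ∑ j, ⟪h i, (star (T j) * T i - T i * star (T j)) (h j)⟫_ℂ

/-- Spherical quasinormality: every `T_i` commutes with `∑ T_j^* T_j`. -/
def SphericallyQuasinormal {ι : Type*} [Fintype ι] (T : ι → H →L[ℂ] H) : Prop :=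
  ∀ i, T i * (∑ j, star (T j) * T j) = (∑ j, star (T j) * T j) * T i

/-- The power `T^n`: the tuple of all words `T_{w 0} T_{w 1} ⋯ T_{w (n-1)}`, indexed by
`w : Fin n → Fin d`. -/
def tuplePow {d : ℕ} (T : Fin d → H →L[ℂ] H) (n : ℕ) : (Fin n → Fin d) → H →L[ℂ] H :=
  fun w => (List.ofFn fun k => T (w k)).prod

section aux

variable {d : ℕ}

/-- the map `X ↦ ∑ T_i^* X T_i` -/
def Th (T : Fin d → H →L[ℂ] H) (X : H →L[ℂ] H) : H →L[ℂ] H := ∑ i, star (T i) * X * T i

/-- the iterates of `1` -/
def As (T : Fin d → H →L[ℂ] H) (k : ℕ) : H →L[ℂ] H := (Th T)^[k] 1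

theorem inner_Th (T : Fin d → H →L[ℂ] H) (X : H →L[ℂ] H) (u v : H) :
    ⟪Th T X u, v⟫_ℂ = ∑ i, ⟪X (T i u), T i v⟫_ℂ := by
  unfold Th
  rw [show (∑ i, star (T i) * X * T i) u = ∑ i, (star (T i) * X * T i) u by
    simp]
  rw [sum_inner]
  refine Finset.sum_congr rfl fun i _ => ?_
  change ⟪(star (T i)) (X (T i u)), v⟫_ℂ = _
  rw [ContinuousLinearMap.star_eq_adjoint]
  exact ContinuousLinearMap.adjoint_inner_left (T i) v (X (T i u))

theorem As_succ (T : Fin d → H →L[ℂ] H) (k : ℕ) : As T (k + 1) = Th T (As T k) := by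
  unfold As
  rw [Function.iterate_succ_apply']

theorem As_sa (T : Fin d → H →L[ℂ] H) (k : ℕ) : IsSelfAdjoint (As T k) := by
  induction k with
  | zero => exact IsSelfAdjoint.one _
  | succ k ih =>
    rw [As_succ]
    unfold Th
    refine isSelfAdjoint_sum _ fun i _ => ?_
    rw [IsSelfAdjoint, star_mul, star_mul, star_star, ih.star_eq, mul_assoc]

theorem As_pos (T : Fin d → H →L[ℂ] H) (k : ℕ) (x : H) : 0 ≤ qf (As T k) x := by
  induction k generalizing x with
  | zero =>
    change 0 ≤ qf 1 x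
    rw [qf_one]; positivity
  | succ k ih =>
    rw [As_succ, qf, inner_Th, Complex.re_sum]
    exact Finset.sum_nonneg fun i _ => ih (T i x)

theorem tuplePow_sum (T : Fin d → H →L[ℂ] H) (n : ℕ) (X : H →L[ℂ] H) :
    ∑ w, star (tuplePow T n w) * X * tuplePow T n w = (Th T)^[n] X := by
  induction n generalizing X with
  | zero => simp [tuplePow]
  | succ n ih =>
    rw [Function.iterate_succ_apply, ← ih (Th T X)]
    rw [← (Fin.consEquiv fun _ : Fin (n + 1) => Fin d).sum_comp, Fintype.sum_prod_type_right]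
    refine Finset.sum_congr rfl fun w _ => ?_
    unfold Th
    rw [Finset.mul_sum, Finset.sum_mul]
    refine Finset.sum_congr rfl fun i _ => ?_
    have : tuplePow T (n + 1) ((Fin.consEquiv fun _ : Fin (n + 1) => Fin d) (i, w)) =
        T i * tuplePow T n w := by
      simp [tuplePow, Fin.consEquiv]
    rw [this, star_mul]
    noncomm_ring

end aux

/-- the sesquilinear form of the self-commutator matrix -/
def form {ι : Type*} [Fintype ι] (T : ι → H →L[ℂ] H) (g h : ι → H) : ℂ :=
  ∑ i, ∑ j, ⟪g i, (star (T j) * T i - T i * star (T j)) (h j)⟫_ℂ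

theorem form_symm {ι : Type*} [Fintype ι] (T : ι → H →L[ℂ] H) (g h : ι → H) :
    (form T g h).re = (form T h g).re := by
  unfold form
  rw [Finset.sum_comm (f := fun i j => ⟪h i, (star (T j) * T i - T i * star (T j)) (g j)⟫_ℂ)]
  simp only [Complex.re_sum]
  refine Finset.sum_congr rfl fun i _ => Finset.sum_congr rfl fun j _ => ?_
  rw [re_symm]
  congr 1
  have := ContinuousLinearMap.adjoint_inner_right
    (star (T j) * T i - T i * star (T j)) (h j) (g i)
  rw [← this, ← ContinuousLinearMap.star_eq_adjoint]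
  congr 2
  rw [star_sub, star_mul, star_mul, star_star]

theorem form_add_smul {ι : Type*} [Fintype ι] (T : ι → H →L[ℂ] H) (g h : ι → H) (t : ℝ) :
    (form T (fun i => h i + (t : ℂ) • g i) (fun i => h i + (t : ℂ) • g i)).re =
      (form T h h).re + 2 * t * (form T g h).re + t ^ 2 * (form T g g).re := by
  have e1 : (form T (fun i => h i + (t : ℂ) • g i) (fun i => h i + (t : ℂ) • g i)).re =
      (form T h h).re + t * (form T h g).re + t * (form T g h).re + t ^ 2 * (form T g g).re := by
    simp only [form, Complex.re_sum, Finset.mul_sum, ← Finset.sum_add_distrib]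
    refine Finset.sum_congr rfl fun i _ => Finset.sum_congr rfl fun j _ => ?_
    simp only [map_add, map_smul, inner_add_left, inner_add_right, inner_smul_left,
      inner_smul_right, Complex.add_re, Complex.conj_ofReal, Complex.re_ofReal_mul]
    ring
  rw [e1, form_symm T h g]
  ring

theorem form_zero {ι : Type*} [Fintype ι] {T : ι → H →L[ℂ] H} (hT : JointlyHyponormal T)
    {h : ι → H} (hh : (form T h h).re = 0) (i : ι) :
    ∑ j, (star (T j) * T i - T i * star (T j)) (h j) = 0 := by
  have hpos : ∀ g, 0 ≤ (form T g g).re := fun g => (Complex.le_def.mp (hT g)).1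
  have hlin : ∀ g, (form T g h).re = 0 := by
    intro g
    have h1 : ∀ t : ℝ, 0 ≤ 2 * t * (form T g h).re + t ^ 2 * (form T g g).re := by
      intro t
      have := hpos (fun i => h i + (t : ℂ) • g i)
      rw [form_add_smul, hh] at this
      linarith
    by_contra hne
    have hg := hpos g
    set b := (form T g h).re with hb
    set c := (form T g g).re with hc
    have h2 := h1 (-b / (c + 1))
    have hc1 : 0 < c + 1 := by linarith
    have h3 : 2 * (-b / (c + 1)) * b + (-b / (c + 1)) ^ 2 * c =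
        -(b ^ 2 / (c + 1) ^ 2) * (c + 2) := by
      field_simp
      ring
    rw [h3] at h2
    have h4 : 0 < b ^ 2 / (c + 1) ^ 2 := by positivity
    nlinarith
  set g : ι → H := fun i => ∑ j, (star (T j) * T i - T i * star (T j)) (h j) with hg
  have h5 := hlin g
  have h6 : form T g h = ∑ i, ((‖g i‖ ^ 2 : ℝ) : ℂ) := by
    unfold form
    refine Finset.sum_congr rfl fun i _ => ?_
    rw [← inner_sum]
    change ⟪g i, g i⟫_ℂ = _
    rw [inner_self_eq_norm_sq_to_K]
    norm_cast
  rw [h6, ← Complex.ofReal_sum, Complex.ofReal_re] at h5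
  have h7 := (Finset.sum_eq_zero_iff_of_nonneg (fun i _ => by positivity)).mp h5 i
    (Finset.mem_univ _)
  have h8 : g i = 0 := by simpa using h7
  exact h8

theorem form_tuple {d : ℕ} {T : Fin d → H →L[ℂ] H} (hc : Commuting T) (x : H) :
    (form T (fun j => T j x) (fun j => T j x)).re = qf (As T 2) x - ‖As T 1 x‖ ^ 2 := by
  have hQ : As T 1 = ∑ j, star (T j) * T j := by
    rw [show (1 : ℕ) = 0 + 1 from rfl, As_succ]
    change Th T 1 = _
    simp [Th]
  have e1 : (form T (fun j => T j x) (fun j => T j x)) =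
      ∑ i, ∑ j, (⟪T j (T i x), T i (T j x)⟫_ℂ - ⟪star (T i) (T i x), star (T j) (T j x)⟫_ℂ) := by
    unfold form
    refine Finset.sum_congr rfl fun i _ => Finset.sum_congr rfl fun j _ => ?_
    change ⟪T i x, (star (T j)) (T i (T j x)) - T i ((star (T j)) (T j x))⟫_ℂ = _
    rw [inner_sub_right]
    congr 1
    · rw [ContinuousLinearMap.star_eq_adjoint]
      exact ContinuousLinearMap.adjoint_inner_right (T j) (T i x) (T i (T j x))
    · rw [ContinuousLinearMap.star_eq_adjoint]
      exact (ContinuousLinearMap.adjoint_inner_left (T i) _ (T i x)).symm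
  have e2 : ∀ i j, T i (T j x) = T j (T i x) := fun i j => by
    have := congrArg (fun S : H →L[ℂ] H => S x) (hc i j)
    exact this
  have e3 : (qf (As T 2) x : ℝ) = (∑ i, ∑ j, ⟪T j (T i x), T i (T j x)⟫_ℂ).re := by
    rw [show (2 : ℕ) = 1 + 1 from rfl, As_succ, qf, inner_Th]
    congr 1
    refine Finset.sum_congr rfl fun i _ => ?_
    rw [show (1 : ℕ) = 0 + 1 from rfl, As_succ, inner_Th]
    refine Finset.sum_congr rfl fun j _ => ?_
    change ⟪T j (T i x), T j (T i x)⟫_ℂ = _
    rw [e2 i j]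
  have e4 : ((‖As T 1 x‖ ^ 2 : ℝ) : ℂ) =
      ∑ i, ∑ j, ⟪star (T i) (T i x), star (T j) (T j x)⟫_ℂ := by
    have h1 : As T 1 x = ∑ j, star (T j) (T j x) := by
      rw [hQ]
      simp
    have h2 : ((‖As T 1 x‖ ^ 2 : ℝ) : ℂ) = ⟪As T 1 x, As T 1 x⟫_ℂ := by
      rw [inner_self_eq_norm_sq_to_K]; norm_cast
    rw [h2, h1, sum_inner]
    refine Finset.sum_congr rfl fun i _ => ?_
    rw [inner_sum]
  rw [e1]
  simp only [Finset.sum_sub_distrib]
  rw [Complex.sub_re, ← e3, ← e4, Complex.ofReal_re]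

theorem logConvex {d : ℕ} {T : Fin d → H →L[ℂ] H} (hc : Commuting T)
    (hT : JointlyHyponormal T) : LogConvex (As T) := by
  intro k
  induction k with
  | zero =>
    intro u v
    have h1 : 0 ≤ qf (As T 2) v - ‖As T 1 v‖ ^ 2 := by
      rw [← form_tuple hc]
      exact (Complex.le_def.mp (hT _)).1
    have h2 : (⟪As T 1 u, v⟫_ℂ).re ≤ ‖u‖ * ‖As T 1 v‖ := by
      rw [sa_inner (As_sa T 1)]
      exact (Complex.re_le_norm _).trans (norm_inner_le_norm _ _)
    have h3 : qf (As T 0) u = ‖u‖ ^ 2 := qf_one u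
    rw [h3]
    change 2 * (⟪As T 1 u, v⟫_ℂ).re ≤ ‖u‖ ^ 2 + qf (As T 2) v
    nlinarith [sq_nonneg (‖u‖ - ‖As T 1 v‖)]
  | succ k ih =>
    intro u v
    have h1 : (⟪As T (k + 1 + 1) u, v⟫_ℂ).re = ∑ i, (⟪As T (k + 1) (T i u), T i v⟫_ℂ).re := by
      rw [As_succ, inner_Th, Complex.re_sum]
    have h2 : qf (As T (k + 1)) u = ∑ i, qf (As T k) (T i u) := by
      rw [qf, As_succ, inner_Th, Complex.re_sum]; rfl
    have h3 : qf (As T (k + 1 + 2)) v = ∑ i, qf (As T (k + 2)) (T i v) := by
      rw [qf, show k + 1 + 2 = (k + 2) + 1 from rfl, As_succ, inner_Th, Complex.re_sum]; rfl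
    rw [h1, h2, h3, Finset.mul_sum, ← Finset.sum_add_distrib]
    exact Finset.sum_le_sum fun i _ => ih (T i u) (T i v)

/-- **Hyponormal roots of spherically quasinormal tuples are spherically quasinormal.** -/
theorem result {H : Type*} [NormedAddCommGroup H] [InnerProductSpace ℂ H] [CompleteSpace H]
    {d : ℕ} (T : Fin d → H →L[ℂ] H) (hc : Commuting T) (hT : JointlyHyponormal T)
    {n : ℕ} (hn : 1 ≤ n) (hpow : SphericallyQuasinormal (tuplePow T n)) :
    SphericallyQuasinormal T := by
  have hR : ∑ w, star (tuplePow T n w) * tuplePow T n w = As T n := by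
    have := tuplePow_sum T n 1
    simp only [mul_one] at this
    exact this
  have hR2 : As T (2 * n) = As T n ^ 2 := by
    have e1 : As T (2 * n) = (Th T)^[n] (As T n) := by
      unfold As
      rw [two_mul, Function.iterate_add_apply]
    rw [e1, ← tuplePow_sum]
    have e2 : ∀ w, star (tuplePow T n w) * As T n * tuplePow T n w =
        star (tuplePow T n w) * tuplePow T n w * As T n := by
      intro w
      have := hpow w
      rw [hR] at this
      rw [mul_assoc, ← this, mul_assoc]
    rw [Finset.sum_congr rfl fun w _ => e2 w, ← Finset.sum_mul, hR, sq]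
  have hRpos : 0 ≤ As T n := by
    rw [ContinuousLinearMap.nonneg_iff_isPositive, ContinuousLinearMap.isPositive_def']
    exact ⟨As_sa T n, As_pos T n⟩
  have hRs : IsSelfAdjoint (As T n) := As_sa T n
  -- the `n`-th root
  set ρ : H →L[ℂ] H := cfc (fun t : ℝ => t ^ ((n : ℝ)⁻¹)) (As T n) with hρdef
  have hcont : Continuous fun t : ℝ => t ^ ((n : ℝ)⁻¹) :=
    Real.continuous_rpow_const (by positivity)
  have hρ : 0 ≤ ρ := cfc_nonneg fun t ht => Real.rpow_nonneg (spec_nonneg hRpos ht) _
  have hn0 : (n : ℝ) ≠ 0 := by exact_mod_cast (by omega : n ≠ 0)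
  have hρn : ρ ^ n = As T n := by
    rw [hρdef, ← cfc_pow (fun t : ℝ => t ^ ((n : ℝ)⁻¹)) n (As T n) hcont.continuousOn]
    have : cfc (fun t : ℝ => (t ^ ((n : ℝ)⁻¹)) ^ n) (As T n) = cfc (fun t : ℝ => t) (As T n) := by
      refine cfc_congr fun t ht => ?_
      have ht0 := spec_nonneg hRpos ht
      change (t ^ ((n : ℝ)⁻¹)) ^ n = t
      rw [← Real.rpow_natCast, ← Real.rpow_mul ht0, inv_mul_cancel₀ hn0, Real.rpow_one]
    rw [this, cfc_id' ℝ (As T n)]
  obtain ⟨h1, h2⟩ := seq_eq (As_sa T) (logConvex hc hT) hρ (As_pos T) hn rfl hρn.symm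
    (by rw [hR2, ← hρn, ← pow_mul, mul_comm])
  have hQ : As T 1 = ∑ j, star (T j) * T j := by
    rw [show (1 : ℕ) = 0 + 1 from rfl, As_succ]
    change Th T 1 = _
    simp [Th]
  have hρs : IsSelfAdjoint ρ := IsSelfAdjoint.of_nonneg hρ
  have hform : ∀ x, (form T (fun j => T j x) (fun j => T j x)).re = 0 := by
    intro x
    rw [form_tuple hc, h2, h1]
    have : qf (ρ ^ 2) x = ‖ρ x‖ ^ 2 := by
      have e := qf_pow_conj hρs 0 x
      rw [pow_zero, qf_one] at e
      exact e.symm
    rw [this, sub_self]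
  intro i
  rw [← hQ]
  ext x
  have h5 := form_zero hT (hform x) i
  have h6 : ∑ j, (star (T j) * T i - T i * star (T j)) (T j x) =
      (∑ j, star (T j) * T j) (T i x) - T i ((∑ j, star (T j) * T j) x) := by
    have e1 : (∑ j, star (T j) * T j) (T i x) = ∑ j, (star (T j)) (T j (T i x)) := by
      simp
    have e2 : (∑ j, star (T j) * T j) x = ∑ j, (star (T j)) (T j x) := by
      simp
    rw [e1, e2, map_sum, ← Finset.sum_sub_distrib]
    refine Finset.sum_congr rfl fun j _ => ?_
    change (star (T j)) (T i (T j x)) - T i ((star (T j)) (T j x)) = _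
    have := congrArg (fun S : H →L[ℂ] H => S x) (hc i j)
    have this' : T i (T j x) = T j (T i x) := this
    rw [this']
  rw [h6, ← hQ, sub_eq_zero] at h5
  exact h5.symm

end Pool.Agent.Results.MP_20dafb_an.Roots
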